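import Pool.Agent.H27.TM.TargetsG
import Pool.Agent.H63.SWL.Common

/-!
# The dual sums: lemmas
-/

set_option autoImplicit false

open NumberField NumberField.InfinitePlace Set Filter Complex
open scoped nonZeroDivisors ENNReal

namespace Pool.Agent.H6.TM.P2

open Pool.Agent.H25.HK Pool.Agent.H27.TM
open Pool.Agent.H29.DW (dg Rl wv Pos rv)
open Pool.Agent.H31.SW (DD PP dK)
open Pool.Agent.H63.SWL (PP_pos PP_nonneg one_le_PP PP_mono PP_mul PP_const PP_const_mul one_le_dK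
  DD_pos zero_memL)

section

variable {K : Type} [Field K] [NumberField K]

/-- the tail of the sum -/
theorem tail (N : FI K) (S : Finset {ν : K // ν ∈ N}) (f : K → ℂ) (w : K → ℝ) (P : K → Prop)
    {A0 A1 : ℝ} (hw : ∀ ν, 0 ≤ w ν) (hws : Summable fun ν : {ν : K // ν ∈ N} => w ν)
    (h0 : ‖f 0‖ ≤ A0) (hA1 : 0 ≤ A1) (h1 : ∀ ν, ‖f ν‖ ≤ A1 * w ν)
    (hS : ∀ ν : {ν : K // ν ∈ N}, ν ∉ S → ν.1 ≠ 0 → ¬ P ν) :
    ‖∑' ν : {ν : {ν : K // ν ∈ N} // ν ∉ S}, f ν.1‖ ≤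
      A0 + A1 * ∑' ν : {ν : K // ν ∈ N ∧ ¬ P ν}, w ν := by
  classical
  have hA0 : 0 ≤ A0 := (norm_nonneg _).trans h0
  have hfs : Summable fun ν : {ν : K // ν ∈ N} => ‖f ν‖ :=
    Summable.of_nonneg_of_le (fun _ => norm_nonneg _) (fun ν => h1 ν) (hws.mul_left A1)
  let z : {ν : K // ν ∈ N} := ⟨0, zero_memL N⟩
  let g1 : {ν : K // ν ∈ N} → ℝ := fun ν => if ν = z then A0 else 0
  let g2 : {ν : K // ν ∈ N} → ℝ := fun ν => if P ν then 0 else A1 * w ν
  have hg1 : Summable g1 := summable_of_ne_finset_zero (s := {z}) fun ν hν => by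
    have : ν ≠ z := fun h => hν (by rw [h]; exact Finset.mem_singleton_self _)
    simp only [g1, if_neg this]
  have hg2 : Summable g2 := by
    refine Summable.of_nonneg_of_le (fun ν => ?_) (fun ν => ?_) (hws.mul_left A1)
    · simp only [g2]
      split_ifs
      · exact le_rfl
      · exact mul_nonneg hA1 (hw _)
    · simp only [g2]
      split_ifs
      · exact mul_nonneg hA1 (hw _)
      · exact le_rfl
  have e1 : ∑' ν, g1 ν = A0 := by
    rw [tsum_eq_single z]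
    · simp only [g1, if_pos rfl]
    · intro ν hν
      simp only [g1, if_neg hν]
  have e2 : ∑' ν, g2 ν = A1 * ∑' ν : {ν : K // ν ∈ N ∧ ¬ P ν}, w ν := by
    have a1 : ∑' ν, g2 ν = ∑' ν : K, ({ν : K | ν ∈ N}).indicator
        (fun ν => if P ν then 0 else A1 * w ν) ν :=
      tsum_subtype {ν : K | ν ∈ N} (fun ν => if P ν then 0 else A1 * w ν)
    have a2 : ∑' ν : {ν : K // ν ∈ N ∧ ¬ P ν}, w ν = ∑' ν : K,
        ({ν : K | ν ∈ N ∧ ¬ P ν}).indicator w ν := tsum_subtype {ν : K | ν ∈ N ∧ ¬ P ν} w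
    rw [a1, a2, ← tsum_mul_left]
    refine tsum_congr fun ν => ?_
    by_cases h2 : ν ∈ N
    · by_cases h3 : P ν
      · rw [Set.indicator_of_mem (s := {ν : K | ν ∈ N}) h2,
          Set.indicator_of_notMem (s := {ν : K | ν ∈ N ∧ ¬ P ν}) fun h => h.2 h3,
          if_pos h3, mul_zero]
      · rw [Set.indicator_of_mem (s := {ν : K | ν ∈ N}) h2,
          Set.indicator_of_mem (s := {ν : K | ν ∈ N ∧ ¬ P ν}) ⟨h2, h3⟩, if_neg h3]
    · rw [Set.indicator_of_notMem (s := {ν : K | ν ∈ N}) h2,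
        Set.indicator_of_notMem (s := {ν : K | ν ∈ N ∧ ¬ P ν}) fun h => h2 h.1, mul_zero]
  have hsub : Summable fun ν : {ν : {ν : K // ν ∈ N} // ν ∉ S} => ‖f ν.1‖ :=
    hfs.comp_injective Subtype.val_injective
  have e3 : ∑' ν : {ν : {ν : K // ν ∈ N} // ν ∉ S}, ‖f ν.1‖ =
      ∑' ν : {ν : K // ν ∈ N}, ({ν : {ν : K // ν ∈ N} | ν ∉ S}).indicator
        (fun ν => ‖f ν‖) ν :=
    tsum_subtype {ν : {ν : K // ν ∈ N} | ν ∉ S} (fun ν => ‖f ν‖)
  calc ‖∑' ν : {ν : {ν : K // ν ∈ N} // ν ∉ S}, f ν.1‖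
      ≤ ∑' ν : {ν : {ν : K // ν ∈ N} // ν ∉ S}, ‖f ν.1‖ := norm_tsum_le_tsum_norm hsub
    _ ≤ ∑' ν, (g1 ν + g2 ν) := by
        rw [e3]
        refine Summable.tsum_le_tsum (fun ν => ?_) (hfs.indicator _) (hg1.add hg2)
        have n1 : 0 ≤ g1 ν := by
          simp only [g1]
          split_ifs
          · exact hA0
          · exact le_rfl
        have n2 : 0 ≤ g2 ν := by
          simp only [g2]
          split_ifs
          · exact le_rfl
          · exact mul_nonneg hA1 (hw _)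
        by_cases h2 : ν ∈ S
        · rw [Set.indicator_of_notMem (s := {ν : {ν : K // ν ∈ N} | ν ∉ S}) fun h => h h2]
          exact add_nonneg n1 n2
        · rw [Set.indicator_of_mem (s := {ν : {ν : K // ν ∈ N} | ν ∉ S}) h2]
          by_cases h3 : ν = z
          · have : ‖f ν‖ ≤ g1 ν := by
              simp only [g1, if_pos h3]
              rw [h3]
              exact h0
            linarith
          · have h4 : ν.1 ≠ 0 := fun h => h3 (Subtype.ext h)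
            have : ‖f ν‖ ≤ g2 ν := by
              simp only [g2, if_neg (hS ν h2 h4)]
              exact h1 ν
            linarith
    _ = A0 + A1 * ∑' ν : {ν : K // ν ∈ N ∧ ¬ P ν}, w ν := by
        rw [hg1.tsum_add hg2, e1, e2]

/-- weights -/
theorem wt_le_one (α τ : InfinitePlace K → ℝ) (k : ℕ) (ν : K) :
    (0 : ℝ) ≤ ∏ v : InfinitePlace K, (1 + ‖mc α ν v‖ / bt α τ v) ^ (-(k : ℝ)) ∧
    ∏ v : InfinitePlace K, (1 + ‖mc α ν v‖ / bt α τ v) ^ (-(k : ℝ)) ≤ 1 := by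
  have h0 : ∀ v : InfinitePlace K, 1 ≤ 1 + ‖mc α ν v‖ / bt α τ v := fun v => by
    have h1 : 0 ≤ ‖mc α ν v‖ / bt α τ v :=
      div_nonneg (norm_nonneg _) (zero_le_one.trans (le_max_left _ _))
    linarith
  constructor
  · exact Finset.prod_nonneg fun v _ => Real.rpow_nonneg (zero_le_one.trans (h0 v)) _
  · refine Finset.prod_le_one (fun v _ => Real.rpow_nonneg (zero_le_one.trans (h0 v)) _)
      fun v _ => Real.rpow_le_one_of_one_le_of_nonpos (h0 v) ?_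
    exact neg_nonpos.2 (Nat.cast_nonneg _)

/-- the products -/
theorem prods {n : ℕ} (_hn : Module.finrank ℚ K = n) {G α τ : InfinitePlace K → ℝ}
    (h : ∀ v, 1 ≤ G v ∧ 0 < α v ∧ α v ≤ 1 / 10000 ∧ G v * α v ≤ 1 / 10000 ∧ G v ^ 3 ≤ τ v) :
    (∀ v, 1 ≤ τ v) ∧ (∀ v, 1 ≤ bt α τ v) ∧ (∀ v, bt α τ v ≤ τ v) ∧
    0 < PP α ∧ PP α ≤ 1 ∧ 1 ≤ PP G ∧ 1 ≤ PP (bt α τ) ∧ PP (bt α τ) ≤ PP τ ∧ 1 ≤ PP τ ∧
    PP α * PP τ ≤ PP (bt α τ) ∧ PP α * PP (bt α τ) * PP G ^ 2 ≤ PP τ ∧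
    PP α * PP (fun v => 1 + 2 * α v * G v ^ 3) ^ (1 / 2 : ℝ) ≤ 1 := by
  have hτ : ∀ v, 1 ≤ τ v := fun v => by
    obtain ⟨h1, -, -, -, h2⟩ := h v
    exact (one_le_pow₀ h1).trans h2
  have hbt : ∀ v, 1 ≤ bt α τ v := fun v => le_max_left _ _
  have hbτ : ∀ v, bt α τ v ≤ τ v := fun v => by
    obtain ⟨h1, h2, h3, -, -⟩ := h v
    refine max_le (hτ v) ?_
    have := hτ v
    nlinarith
  have hα0 : 0 < PP α := PP_pos fun v => (h v).2.1
  have hα1 : PP α ≤ 1 := by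
    have h1 : PP α ≤ PP (fun _ : InfinitePlace K => (1 : ℝ)) :=
      PP_mono (fun v => (h v).2.1.le) fun v => by linarith [(h v).2.2.1]
    rw [PP_const, one_pow] at h1
    exact h1
  have hG : 1 ≤ PP G := one_le_PP fun v => (h v).1
  refine ⟨hτ, hbt, hbτ, hα0, hα1, hG, one_le_PP hbt,
    PP_mono (fun v => zero_le_one.trans (hbt v)) hbτ, one_le_PP hτ, ?_, ?_, ?_⟩
  · rw [← PP_mul]
    exact PP_mono (fun v => mul_nonneg (h v).2.1.le (zero_le_one.trans (hτ v)))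
      fun v => le_max_right _ _
  · rw [pow_two, ← PP_mul, ← PP_mul, ← PP_mul]
    refine PP_mono (fun v => ?_) fun v => ?_
    · have h1 := (h v).2.1
      have h2 := (h v).1
      have h3 := hbt v
      positivity
    · obtain ⟨h1, h2, h3, h4, h5⟩ := h v
      have hb : bt α τ v = max 1 (α v * τ v) := rfl
      have hp : 0 ≤ α v * (G v * G v) := by positivity
      have e : α v * bt α τ v * (G v * G v) = max (α v * (G v * G v)) (α v * (G v * G v) *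
          (α v * τ v)) := by
        rw [hb, mul_right_comm, mul_max_of_nonneg _ _ hp, mul_one]
      rw [e]
      refine max_le ?_ ?_
      · have h6 : α v * (G v * G v) ≤ G v := by nlinarith
        have h7 : G v ≤ G v ^ 3 := by nlinarith [mul_self_nonneg (G v), sq_nonneg (G v - 1)]
        linarith
      · have h6 : α v * (G v * G v) * (α v * τ v) = (G v * α v) ^ 2 * τ v := by ring
        rw [h6]
        have h7 : (G v * α v) ^ 2 ≤ 1 := by
          refine pow_le_one₀ (by positivity) (by linarith)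
        nlinarith [hτ v]
  · have h1 : PP α * PP (fun v => 1 + 2 * α v * G v ^ 3) ^ (1 / 2 : ℝ) =
        Real.sqrt (PP α ^ 2 * PP (fun v => 1 + 2 * α v * G v ^ 3)) := by
      rw [Real.sqrt_mul (by positivity), Real.sqrt_sq hα0.le, Real.sqrt_eq_rpow]
    rw [h1]
    refine Real.sqrt_le_one.2 ?_
    rw [pow_two, ← PP_mul, ← PP_mul]
    have h2 : PP (fun v => α v * α v * (1 + 2 * α v * G v ^ 3)) ≤
        PP (fun _ : InfinitePlace K => (1 : ℝ)) := by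
      refine PP_mono (fun v => ?_) fun v => ?_
      · have h1 := (h v).2.1
        have h2 := (h v).1
        positivity
      · obtain ⟨h1, h2, h3, h4, h5⟩ := h v
        have h6 : α v * α v * (1 + 2 * α v * G v ^ 3) = α v * α v + 2 * (G v * α v) ^ 3 := by
          ring
        rw [h6]
        have h7 : (G v * α v) ^ 3 ≤ (1 / 10000) ^ 3 :=
          pow_le_pow_left₀ (by positivity) h4 _
        have h8 : α v * α v ≤ 1 / 10000 * (1 / 10000) :=
          mul_le_mul h3 h3 h2.le (by norm_num)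
        norm_num at h7 h8 ⊢
        linarith
    rw [PP_const, one_pow] at h2
    exact h2

end

/-- the numbers -/
theorem num {Cz Cv Cp Cs d T a B g Θ R D e ε Wn S1 S2 : ℝ} (hCz : 0 ≤ Cz) (_hCv : 0 ≤ Cv)
    (hCp : 0 ≤ Cp) (hCs : 1 ≤ Cs) (hd : 1 ≤ d) (hT : 1 ≤ T) (ha : 0 < a) (hB : 0 < B)
    (hg : 1 ≤ g) (hΘ : 0 ≤ Θ) (hR : 0 ≤ R) (hD : 1 ≤ D) (he : 0 < e) (he1 : e ≤ 1)
    (heε : e ≤ ε) (hWn : Wn = T ^ (e / 8)) (h1 : a * B * g ^ 2 ≤ T) (h2 : a * Θ ≤ 1)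
    (hS1 : S1 ≤ Cz * (d * (a * B) * Wn) * (Cv * (d * T ^ 2) ^ (e / 16)) ^ 2)
    (hS2 : S2 ≤ Cp * (Real.sqrt d * (a * (R * (Cs * (D / (a * g)))) + R ^ 2 * (Θ / B))))
    (hS10 : 0 ≤ S1) (hS20 : 0 ≤ S2) :
    Real.sqrt S1 * Real.sqrt S2 ≤ (Cz * Cp * Cs * Cv ^ 2 + 1) * (D * d ^ 2 * T ^ ε *
      (R ^ (1 / 2 : ℝ) * (T ^ (1 / 2 : ℝ) * g ^ (-(3 / 2) : ℝ)) + R)) := by
  have hT0 : 0 < T := by linarith
  have hd0 : 0 < d := by linarith
  have hg0 : 0 < g := by linarith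
  have hD0 : 0 < D := by linarith
  have hCs0 : 0 < Cs := by linarith
  set P : ℝ := (d * T ^ 2) ^ (e / 16) with hPdef
  have hP0 : 0 ≤ P := by positivity
  set X : ℝ := R ^ (1 / 2 : ℝ) * (T ^ (1 / 2 : ℝ) * g ^ (-(3 / 2) : ℝ)) with hX
  have hX0 : 0 ≤ X := by positivity
  set sd := Real.sqrt d with hsd
  have hsd0 : 0 ≤ sd := Real.sqrt_nonneg _
  have hsd1 : sd ≤ d := by
    rw [hsd, Real.sqrt_le_left hd0.le]
    nlinarith
  have hP : P ^ 2 ≤ d * T ^ (e / 4) := by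
    have e1 : P ^ 2 = d ^ (e / 8) * T ^ (e / 4) := by
      rw [hPdef, ← Real.rpow_natCast, ← Real.rpow_mul (by positivity),
        Real.mul_rpow hd0.le (by positivity), ← Real.rpow_natCast T 2, ← Real.rpow_mul hT0.le]
      congr 2 <;> push_cast <;> ring
    rw [e1]
    refine mul_le_mul_of_nonneg_right ?_ (by positivity)
    calc d ^ (e / 8) ≤ d ^ (1 : ℝ) := Real.rpow_le_rpow_of_exponent_le hd (by linarith)
      _ = d := Real.rpow_one d
  have hU : d * sd * Wn * P ^ 2 ≤ d ^ 4 * (T ^ ε) ^ 2 := by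
    have e2 : T ^ (e / 8) * T ^ (e / 4) ≤ (T ^ ε) ^ 2 := by
      rw [← Real.rpow_add hT0, ← Real.rpow_natCast, ← Real.rpow_mul hT0.le]
      refine Real.rpow_le_rpow_of_exponent_le hT ?_
      push_cast
      linarith
    calc d * sd * Wn * P ^ 2 ≤ d * d * Wn * (d * T ^ (e / 4)) := by
          rw [hWn]
          gcongr
      _ = d ^ 3 * (T ^ (e / 8) * T ^ (e / 4)) := by rw [hWn]; ring
      _ ≤ d ^ 4 * (T ^ ε) ^ 2 := by
          refine mul_le_mul (pow_le_pow_right₀ hd (by norm_num)) e2 (by positivity)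
            (by positivity)
  have hX2 : X ^ 2 = R * T / g ^ 3 := by
    have a1 : (R ^ (1 / 2 : ℝ)) ^ 2 = R := by
      rw [← Real.rpow_natCast, ← Real.rpow_mul hR]
      norm_num
    have a2 : (T ^ (1 / 2 : ℝ)) ^ 2 = T := by
      rw [← Real.rpow_natCast, ← Real.rpow_mul hT0.le]
      norm_num
    have a3 : (g ^ (-(3 / 2) : ℝ)) ^ 2 = (g ^ 3)⁻¹ := by
      rw [← Real.rpow_natCast, ← Real.rpow_mul hg0.le, ← Real.rpow_natCast g 3,
        ← Real.rpow_neg hg0.le]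
      norm_num
    rw [hX, mul_pow, mul_pow, a1, a2, a3, div_eq_mul_inv]
    ring
  have hV : a * B * (a * (R * (Cs * (D / (a * g)))) + R ^ 2 * (Θ / B)) ≤
      Cs * D ^ 2 * (X ^ 2 + R ^ 2) := by
    have e1 : a * B * (a * (R * (Cs * (D / (a * g)))) + R ^ 2 * (Θ / B)) =
        Cs * (R * D * (a * B * g ^ 2 / g ^ 3)) + R ^ 2 * (a * Θ) := by
      field_simp
    rw [e1, hX2]
    have e2 : Cs * (R * D * (a * B * g ^ 2 / g ^ 3)) ≤ Cs * (R * D ^ 2 * (T / g ^ 3)) := by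
      have h3 : a * B * g ^ 2 / g ^ 3 ≤ T / g ^ 3 := by gcongr
      have h4 : D ≤ D ^ 2 := by nlinarith
      gcongr
    have e3 : R ^ 2 * (a * Θ) ≤ Cs * D ^ 2 * R ^ 2 := by
      have h3 : a * Θ ≤ Cs * D ^ 2 := by nlinarith [mul_pos hCs0 hD0]
      calc R ^ 2 * (a * Θ) ≤ R ^ 2 * (Cs * D ^ 2) :=
            mul_le_mul_of_nonneg_left h3 (by positivity)
        _ = Cs * D ^ 2 * R ^ 2 := by ring
    calc Cs * (R * D * (a * B * g ^ 2 / g ^ 3)) + R ^ 2 * (a * Θ) ≤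
          Cs * (R * D ^ 2 * (T / g ^ 3)) + Cs * D ^ 2 * R ^ 2 := add_le_add e2 e3
      _ = Cs * D ^ 2 * (R * T / g ^ 3 + R ^ 2) := by ring
  have hbr : 0 ≤ a * (R * (Cs * (D / (a * g)))) + R ^ 2 * (Θ / B) := by positivity
  have hWn0 : 0 ≤ Wn := by rw [hWn]; positivity
  have hC0 : 0 ≤ Cz * Cp * Cs * Cv ^ 2 := by positivity
  rw [← Real.sqrt_mul hS10]
  refine Real.sqrt_le_iff.2 ⟨by positivity, ?_⟩
  calc S1 * S2 ≤ (Cz * (d * (a * B) * Wn) * (Cv * P) ^ 2) *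
        (Cp * (sd * (a * (R * (Cs * (D / (a * g)))) + R ^ 2 * (Θ / B)))) :=
        mul_le_mul hS1 hS2 hS20 (by positivity)
    _ = (Cz * Cp * Cv ^ 2) * ((d * sd * Wn * P ^ 2) *
        (a * B * (a * (R * (Cs * (D / (a * g)))) + R ^ 2 * (Θ / B)))) := by ring
    _ ≤ (Cz * Cp * Cv ^ 2) * ((d ^ 4 * (T ^ ε) ^ 2) * (Cs * D ^ 2 * (X ^ 2 + R ^ 2))) := by
        refine mul_le_mul_of_nonneg_left ?_ (by positivity)
        exact mul_le_mul hU hV (by positivity) (by positivity)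
    _ = (Cz * Cp * Cs * Cv ^ 2) * ((D * d ^ 2 * T ^ ε) ^ 2 * (X ^ 2 + R ^ 2)) := by ring
    _ ≤ (Cz * Cp * Cs * Cv ^ 2 + 1) ^ 2 * ((D * d ^ 2 * T ^ ε) ^ 2 * (X + R) ^ 2) := by
        refine mul_le_mul (by nlinarith) ?_ (by positivity) (by positivity)
        refine mul_le_mul_of_nonneg_left ?_ (by positivity)
        nlinarith [mul_nonneg hX0 hR]
    _ = ((Cz * Cp * Cs * Cv ^ 2 + 1) * (D * d ^ 2 * T ^ ε * (X + R))) ^ 2 := by ring

end Pool.Agent.H6.TM.P2
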