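import Pool.Agent.H6.TM.P2a

/-!
# The dual sums
-/

set_option autoImplicit false

open NumberField NumberField.InfinitePlace Set Filter Complex
open scoped nonZeroDivisors ENNReal

namespace Pool.Agent.H6.TM.P2

open Pool.Agent.H25.HK Pool.Agent.H27.TM
open Pool.Agent.H29.DW (dg Rl wv Pos rv)
open Pool.Agent.H31.SW (DD PP dK)
open Pool.Agent.H63.SWL (PP_pos PP_nonneg one_le_PP PP_mono PP_mul PP_const PP_const_mul one_le_dK
  DD_pos zero_memL)

/-- (P2) the dual sums. -/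
theorem pf_P2 (hDU : M_DU) (hET : M_ET) (hZT : M_ZT) (hPS : M_PS) (hDV : M_DV) (hSM : M_SM)
    (hDL : M_DL) : M_P2 := by
  classical
  intro n ε hn hε
  obtain ⟨e, he, he1, heε⟩ : ∃ e : ℝ, 0 < e ∧ e ≤ 1 ∧ e ≤ ε :=
    ⟨min ε 1, lt_min hε one_pos, min_le_right _ _, min_le_left _ _⟩
  have hn' : (0 : ℝ) < n := by exact_mod_cast hn
  obtain ⟨e1, he1'⟩ : ∃ e1 : ℝ, e1 = e / (8 * n) := ⟨_, rfl⟩
  have he10 : 0 < e1 := by rw [he1']; positivity
  obtain ⟨k, hkn, hk⟩ : ∃ k : ℕ, n + 5 ≤ k ∧ 2 / e1 ≤ ((k + 3 : ℕ) : ℝ) - 5 := by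
    refine ⟨n + 5 + ⌈2 / e1⌉₊, by omega, ?_⟩
    have := Nat.le_ceil (2 / e1)
    push_cast
    linarith
  refine ⟨k + 3, by omega, fun C₁ hC₁ => ?_⟩
  obtain ⟨Ce, hCe, hET⟩ := hET n (k + 3) C₁ hn hC₁
  obtain ⟨Cz, hCz, hZT⟩ := hZT n (k + 3) hn (by omega)
  obtain ⟨Cp, hCp, hPS⟩ := hPS n k C₁ hn hkn hC₁
  obtain ⟨Cv, hCv, hDV⟩ := hDV n hn (e / 16) (by positivity)
  obtain ⟨Cs, hCs, hSM⟩ := hSM n hn
  obtain ⟨Cd, hCd, hDL⟩ := hDL n hn
  refine ⟨(Cz * Cp * Cs * Cv ^ 2 + 1) + Cd * Ce * (1 + 2 * Cz), by positivity, ?_⟩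
  intro K _ _ hK L y ω G α τ ι I c D Q b hL hω hG hcls hcd hspc hD hDT hQ hb
  obtain ⟨hτ, hbt, hbτ, ha0, ha1, hg, hB1, hBT, hT, haT, haB, haΘ⟩ := prods hK hG
  have hd : 1 ≤ dK K := one_le_dK
  have hDD : 0 < DD L y := DD_pos hL y
  have hT0 : 0 < PP τ := by linarith
  have hB0 : 0 < PP (bt α τ) := by linarith
  have hα : ∀ v, 0 < α v ∧ α v ≤ 1 / 10000 := fun v => ⟨(hG v).2.1, (hG v).2.2.1⟩
  -- the parameter `W`
  obtain ⟨W, hW⟩ : ∃ W : ℝ, W = PP τ ^ e1 := ⟨_, rfl⟩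
  have hW1 : 1 ≤ W := by rw [hW]; exact Real.one_le_rpow hT he10.le
  have hWn : W ^ n = PP τ ^ (e / 8) := by
    rw [hW, ← Real.rpow_natCast, ← Real.rpow_mul hT0.le, he1']
    congr 1
    field_simp
  have hWk : W ^ (-(((k + 3 : ℕ) : ℝ) - 5)) ≤ (PP τ ^ 2)⁻¹ := by
    rw [hW, ← Real.rpow_mul hT0.le, ← Real.rpow_natCast, ← Real.rpow_neg hT0.le]
    refine Real.rpow_le_rpow_of_exponent_le hT ?_
    rw [div_le_iff₀ he10] at hk
    push_cast at hk ⊢
    linarith
  obtain ⟨hfin, hcard, hsum, htail⟩ := hZT K hK α τ W (fun v => (hα v).1) hW1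
  obtain ⟨w, hw⟩ : ∃ w : K → ℝ, w = fun ν => ∏ v : InfinitePlace K,
    (1 + ‖mc α ν v‖ / bt α τ v) ^ (-((k + 3 : ℕ) : ℝ)) := ⟨_, rfl⟩
  have hw0 : ∀ ν, 0 ≤ w ν := fun ν => by rw [hw]; exact (wt_le_one α τ (k + 3) ν).1
  have hw1 : ∀ ν, w ν ≤ 1 := fun ν => by rw [hw]; exact (wt_le_one α τ (k + 3) ν).2
  have hws : Summable fun ν : {ν : K // ν ∈ NN K} => w ν := by rw [hw]; exact hsum
  have htl : ∑' ν : {ν : K // ν ∈ NN K ∧ ¬ ∀ v, ‖mc α ν v‖ ≤ W * bt α τ v}, w ν ≤
      Cz * (W ^ (-(((k + 3 : ℕ) : ℝ) - 5)) * (dK K * (1 + PP α * PP (bt α τ)))) := by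
    rw [hw]
    exact htail
  have hE : ∀ i ∈ I, ∀ ν, ‖Ep α Q (c i) ν‖ ≤ Ce * w ν := fun i hi ν => by
    rw [hw]
    exact (hET K hK α τ (c i) Q hα (hcls i hi) hQ).1 ν
  have hE0 : ∀ i ∈ I, ‖Ep α Q (c i) 0‖ ≤ Ce * (PP (bt α τ))⁻¹ := fun i hi => by
    refine ((hET K hK α τ (c i) Q hα (hcls i hi) hQ).2).trans
      (mul_le_mul_of_nonneg_left ?_ hCe)
    unfold PP
    rw [← Finset.prod_inv_distrib]
    refine Finset.prod_le_prod (fun v _ => Real.rpow_nonneg (zero_le_one.trans (hbt v)) _)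
      fun v _ => ?_
    rw [Real.rpow_neg (zero_le_one.trans (hbt v)), Real.rpow_natCast]
    refine inv_anti₀ (pow_pos (zero_lt_one.trans_le (hbt v)) _)
      (pow_le_pow_right₀ (hbt v) ?_)
    have : v.mult ≤ 2 := by
      unfold InfinitePlace.mult
      split_ifs <;> norm_num
    omega
  have hb1 : ∀ ν, ‖b ν‖ ≤ Cd * (DD L y * PP α) := fun ν =>
    (hb ν).trans ((hDL K hK L y ω α hL hω fun v => (hα v).1).2.2 ν).2
  have hDa : DD L y * PP α ≤ PP τ := by
    calc DD L y * PP α ≤ PP τ * 1 := mul_le_mul hDT ha1 ha0.le hT0.le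
      _ = PP τ := mul_one _
  have hCd0 : 0 ≤ Cd := by linarith
  have hCs0 : 0 < Cs := by linarith
  have hCv0 : 0 ≤ Cv := by linarith
  -- the set of the main terms
  obtain ⟨S, hS⟩ : ∃ S : Finset {ν : K // ν ∈ NN K},
      S = hfin.toFinset.subtype (fun ν => ν ∈ NN K) := ⟨_, rfl⟩
  have hmem : ∀ ν : {ν : K // ν ∈ NN K}, ν ∈ S ↔
      (ν.1 ≠ 0 ∧ ∀ v, ‖mc α ν.1 v‖ ≤ W * bt α τ v) := fun ν => by
    rw [hS, Finset.mem_subtype, Set.Finite.mem_toFinset]
    exact ⟨fun h => h.2, fun h => ⟨ν.2, h⟩⟩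
  have hScard : (S.card : ℝ) ≤ Cz * (dK K * (PP α * PP (bt α τ)) * W ^ n) := by
    refine le_trans ?_ hcard
    rw [Set.ncard_eq_toFinset_card _ hfin, hS, Finset.card_subtype]
    exact_mod_cast Finset.card_filter_le _ _
  have hmain := hDU ι {ν : K // ν ∈ NN K} I S (fun ν => b ν.1) (fun i ν => Ep α Q (c i) ν.1)
    (Cd * Ce * (1 + 2 * Cz) * dK K) ?_ ?_ ?_
  · -- the sum over `S`
    have hS1 : ∑ ν ∈ S, ‖b ν.1‖ ^ 2 ≤ Cz * (dK K * (PP α * PP (bt α τ)) * PP τ ^ (e / 8)) *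
        (Cv * (dK K * PP τ ^ 2) ^ (e / 16)) ^ 2 := by
      have h1 : ∀ ν ∈ S, ‖b ν.1‖ ^ 2 ≤ (Cv * (dK K * PP τ ^ 2) ^ (e / 16)) ^ 2 := by
        intro ν hν
        obtain ⟨h2, h3⟩ := (hmem ν).1 hν
        refine pow_le_pow_left₀ (norm_nonneg _) ?_ 2
        refine (hb ν.1).trans ((hDV K hK L y ω α ν.1 hL hω (fun v => (hα v).1) ν.2 h2).trans ?_)
        refine mul_le_mul_of_nonneg_left ?_ hCv0
        have hpn : 0 ≤ ∏ v : InfinitePlace K, ‖v.embedding ν.1‖ ^ v.mult :=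
          Finset.prod_nonneg fun v _ => pow_nonneg (norm_nonneg _) _
        refine Real.rpow_le_rpow (mul_nonneg (by linarith) hpn) ?_ (by positivity)
        refine mul_le_mul_of_nonneg_left ?_ (by linarith)
        calc ∏ v : InfinitePlace K, ‖v.embedding ν.1‖ ^ v.mult
            ≤ PP (fun v => W * τ v) := by
              refine Finset.prod_le_prod (fun v _ => pow_nonneg (norm_nonneg _) _) fun v _ => ?_
              refine pow_le_pow_left₀ (norm_nonneg _) ?_ _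
              have h4 : ‖v.embedding ν.1‖ ≤ ‖mc α ν.1 v‖ := by
                unfold mc
                rw [norm_mul, Complex.norm_real, Real.norm_eq_abs]
                have hdg : (1 : ℝ) ≤ dg (rv v) := by
                  unfold dg
                  split_ifs <;> norm_num
                have hpi := Real.pi_gt_three
                have h5 : 1 ≤ |2 * Real.pi * dg (rv v) / α v| := by
                  rw [abs_of_nonneg (div_nonneg (by positivity) (hα v).1.le),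
                    le_div_iff₀ (hα v).1]
                  have := (hα v).2
                  nlinarith
                exact le_mul_of_one_le_left (norm_nonneg _) h5
              exact h4.trans ((h3 v).trans
                (mul_le_mul_of_nonneg_left (hbτ v) (by linarith)))
          _ = W ^ n * PP τ := by rw [PP_const_mul, hK]
          _ ≤ PP τ * PP τ := by
              refine mul_le_mul_of_nonneg_right ?_ hT0.le
              rw [hWn]
              calc PP τ ^ (e / 8) ≤ PP τ ^ (1 : ℝ) :=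
                    Real.rpow_le_rpow_of_exponent_le hT (by linarith)
                _ = PP τ := Real.rpow_one _
          _ = PP τ ^ 2 := (pow_two _).symm
      calc ∑ ν ∈ S, ‖b ν.1‖ ^ 2 ≤
            ∑ _ν ∈ S, (Cv * (dK K * PP τ ^ 2) ^ (e / 16)) ^ 2 := Finset.sum_le_sum h1
        _ = (S.card : ℝ) * (Cv * (dK K * PP τ ^ 2) ^ (e / 16)) ^ 2 := by
            rw [Finset.sum_const, nsmul_eq_mul]
        _ ≤ _ := by
            rw [← hWn]
            exact mul_le_mul_of_nonneg_right hScard (sq_nonneg _)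
    -- the sum over the pairs
    have hS2 : ∑ i ∈ I, ∑ j ∈ I, ‖∑' ν : {ν : K // ν ∈ NN K}, Ep α Q (c i) ν.1 *
        (starRingEnd ℂ) (Ep α Q (c j) ν.1)‖ ≤ Cp * (Real.sqrt (dK K) * (PP α *
        ((I.card : ℝ) * (Cs * (D / (PP α * PP G)))) + (I.card : ℝ) ^ 2 *
        (PP (fun v => 1 + 2 * α v * G v ^ 3) ^ (1 / 2 : ℝ) / PP (bt α τ)))) := by
      have h1 : ∀ i ∈ I, ∑ j ∈ I, ‖∑' ν : {ν : K // ν ∈ NN K}, Ep α Q (c i) ν.1 *
          (starRingEnd ℂ) (Ep α Q (c j) ν.1)‖ ≤ Cp * (Real.sqrt (dK K) * (PP α *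
          (Cs * (D / (PP α * PP G))) + (I.card : ℝ) *
          (PP (fun v => 1 + 2 * α v * G v ^ 3) ^ (1 / 2 : ℝ) / PP (bt α τ)))) := by
        intro i hi
        have h2 : ∀ j ∈ I, ‖∑' ν : {ν : K // ν ∈ NN K}, Ep α Q (c i) ν.1 *
            (starRingEnd ℂ) (Ep α Q (c j) ν.1)‖ ≤ Cp * (Real.sqrt (dK K) * (PP α *
            ∏ v : InfinitePlace K, th1 α (c i) (c j) v ^ (-(4 : ℝ)) +
            PP (fun v => 1 + 2 * α v * G v ^ 3) ^ (1 / 2 : ℝ) / PP (bt α τ))) := by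
          intro j hj
          refine (hPS K hK α τ (c i) (c j) Q hα (hcls i hi) (hcls j hj) hQ).trans ?_
          have hth : ∀ v, 1 ≤ th1 α (c i) (c j) v := fun v => by
            unfold th1
            have := mul_nonneg (hα v).1.le (norm_nonneg (c i v - c j v))
            linarith
          refine mul_le_mul_of_nonneg_left (mul_le_mul_of_nonneg_left (add_le_add ?_ ?_)
            (Real.sqrt_nonneg _)) hCp
          · refine mul_le_mul_of_nonneg_left ?_ ha0.le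
            refine Finset.prod_le_prod
              (fun v _ => Real.rpow_nonneg (zero_le_one.trans (hth v)) _) fun v _ => ?_
            refine Real.rpow_le_rpow_of_exponent_le (hth v) ?_
            have : (4 : ℝ) ≤ k := by exact_mod_cast (by omega : 4 ≤ k)
            linarith
          · refine div_le_div_of_nonneg_right ?_ hB0.le
            refine Real.rpow_le_rpow (PP_nonneg fun v => zero_le_one.trans (hth v)) ?_
              (by norm_num)
            refine PP_mono (fun v => zero_le_one.trans (hth v)) fun v => ?_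
            unfold th1
            have h3 := hcd i hi j hj v
            have h4 := mul_le_mul_of_nonneg_left h3 (hα v).1.le
            linarith
        have h5 : ∑ j ∈ I, ∏ v : InfinitePlace K, th1 α (c i) (c j) v ^ (-(4 : ℝ)) ≤
            Cs * D / (PP α * PP G) := by
          refine hSM K hK ι I c G α D (fun j hj => (hcls j hj).real) (fun v => ?_) hspc i hi
          obtain ⟨g1, g2, g3, g4, -⟩ := hG v
          exact ⟨g2, by linarith, by linarith [mul_comm (G v) (α v)]⟩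
        calc ∑ j ∈ I, ‖∑' ν : {ν : K // ν ∈ NN K}, Ep α Q (c i) ν.1 *
              (starRingEnd ℂ) (Ep α Q (c j) ν.1)‖
            ≤ ∑ j ∈ I, Cp * (Real.sqrt (dK K) * (PP α *
              ∏ v : InfinitePlace K, th1 α (c i) (c j) v ^ (-(4 : ℝ)) +
              PP (fun v => 1 + 2 * α v * G v ^ 3) ^ (1 / 2 : ℝ) / PP (bt α τ))) :=
              Finset.sum_le_sum h2
          _ = Cp * (Real.sqrt (dK K) * (PP α *
              ∑ j ∈ I, ∏ v : InfinitePlace K, th1 α (c i) (c j) v ^ (-(4 : ℝ)) +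
              (I.card : ℝ) *
              (PP (fun v => 1 + 2 * α v * G v ^ 3) ^ (1 / 2 : ℝ) / PP (bt α τ)))) := by
              rw [← Finset.mul_sum, ← Finset.mul_sum, Finset.sum_add_distrib, ← Finset.mul_sum,
                Finset.sum_const, nsmul_eq_mul]
          _ ≤ _ := by
              refine mul_le_mul_of_nonneg_left (mul_le_mul_of_nonneg_left (add_le_add ?_ le_rfl)
                (Real.sqrt_nonneg _)) hCp
              refine mul_le_mul_of_nonneg_left ?_ ha0.le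
              rw [← mul_div_assoc]
              exact h5
      calc ∑ i ∈ I, ∑ j ∈ I, ‖∑' ν : {ν : K // ν ∈ NN K}, Ep α Q (c i) ν.1 *
            (starRingEnd ℂ) (Ep α Q (c j) ν.1)‖ ≤ ∑ _i ∈ I, Cp * (Real.sqrt (dK K) * (PP α *
            (Cs * (D / (PP α * PP G))) + (I.card : ℝ) *
            (PP (fun v => 1 + 2 * α v * G v ^ 3) ^ (1 / 2 : ℝ) / PP (bt α τ)))) :=
            Finset.sum_le_sum h1
        _ = _ := by
            rw [Finset.sum_const, nsmul_eq_mul]
            ring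
    have hΘ : 0 ≤ PP (fun v => 1 + 2 * α v * G v ^ 3) ^ (1 / 2 : ℝ) := by
      refine Real.rpow_nonneg (PP_nonneg fun v => ?_) _
      obtain ⟨g1, g2, -, -, -⟩ := hG v
      positivity
    have hfinal := num hCz hCv0 hCp hCs hd hT ha0 hB0 hg hΘ (Nat.cast_nonneg I.card) hD he he1
      heε rfl haB haΘ hS1 hS2 (Finset.sum_nonneg fun _ _ => sq_nonneg _)
      (Finset.sum_nonneg fun _ _ => Finset.sum_nonneg fun _ _ => norm_nonneg _)
    refine hmain.trans ?_
    obtain ⟨X, hX⟩ : ∃ X : ℝ, X = (I.card : ℝ) ^ (1 / 2 : ℝ) *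
      (PP τ ^ (1 / 2 : ℝ) * PP G ^ (-(3 / 2) : ℝ)) := ⟨_, rfl⟩
    rw [← hX] at hfinal ⊢
    have hX0 : 0 ≤ X := by
      rw [hX]
      have : 0 < PP G := by linarith
      positivity
    have hY : dK K * (I.card : ℝ) ≤ D * dK K ^ 2 * PP τ ^ ε * (X + I.card) := by
      have h1 : 1 ≤ PP τ ^ ε := Real.one_le_rpow hT hε.le
      have h2 : dK K ≤ D * dK K ^ 2 * PP τ ^ ε := by
        have h3 : dK K ≤ dK K ^ 2 := by nlinarith
        have h4 : dK K ^ 2 ≤ D * dK K ^ 2 := le_mul_of_one_le_left (by positivity) hD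
        have h5 : D * dK K ^ 2 ≤ D * dK K ^ 2 * PP τ ^ ε :=
          le_mul_of_one_le_right (by positivity) h1
        linarith
      exact mul_le_mul h2 (by linarith) (Nat.cast_nonneg _) (by positivity)
    have hC5 : 0 ≤ Cd * Ce * (1 + 2 * Cz) := by positivity
    have hZ := mul_le_mul_of_nonneg_left hY hC5
    calc (I.card : ℝ) * (Cd * Ce * (1 + 2 * Cz) * dK K) + _ ≤
          Cd * Ce * (1 + 2 * Cz) * (D * dK K ^ 2 * PP τ ^ ε * (X + I.card)) +
          (Cz * Cp * Cs * Cv ^ 2 + 1) * (D * dK K ^ 2 * PP τ ^ ε * (X + I.card)) :=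
          add_le_add (by linarith) hfinal
      _ = _ := by ring
  · -- summability
    intro i hi
    refine Summable.of_nonneg_of_le (fun _ => sq_nonneg _) (fun ν => ?_) (hws.mul_left (Ce ^ 2))
    calc ‖Ep α Q (c i) ν.1‖ ^ 2 ≤ (Ce * w ν.1) ^ 2 :=
          pow_le_pow_left₀ (norm_nonneg _) (hE i hi _) 2
      _ = Ce ^ 2 * (w ν.1 * w ν.1) := by ring
      _ ≤ Ce ^ 2 * (w ν.1 * 1) := by
          refine mul_le_mul_of_nonneg_left ?_ (sq_nonneg _)
          exact mul_le_mul_of_nonneg_left (hw1 _) (hw0 _)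
      _ = Ce ^ 2 * w ν.1 := by rw [mul_one]
  · intro i hi
    refine Summable.of_norm_bounded (hws.mul_left (Cd * (DD L y * PP α) * Ce)) fun ν => ?_
    rw [norm_mul]
    calc ‖b ν.1‖ * ‖Ep α Q (c i) ν.1‖ ≤ Cd * (DD L y * PP α) * (Ce * w ν.1) :=
          mul_le_mul (hb1 _) (hE i hi _) (norm_nonneg _) (by positivity)
      _ = _ := by ring
  · -- the tail
    intro i hi
    have h0 : ‖b 0 * Ep α Q (c i) 0‖ ≤ Cd * Ce := by
      rw [norm_mul]
      calc ‖b 0‖ * ‖Ep α Q (c i) 0‖ ≤ Cd * (DD L y * PP α) * (Ce * (PP (bt α τ))⁻¹) :=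
            mul_le_mul (hb1 _) (hE0 i hi) (norm_nonneg _) (by positivity)
        _ = Cd * Ce * (DD L y * PP α / PP (bt α τ)) := by
            rw [div_eq_mul_inv]
            ring
        _ ≤ Cd * Ce * 1 := by
            refine mul_le_mul_of_nonneg_left ?_ (by positivity)
            rw [div_le_one hB0]
            calc DD L y * PP α ≤ PP τ * PP α := mul_le_mul_of_nonneg_right hDT ha0.le
              _ = PP α * PP τ := mul_comm _ _
              _ ≤ _ := haT
        _ = Cd * Ce := mul_one _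
    have h1 : ∀ ν, ‖b ν * Ep α Q (c i) ν‖ ≤ Cd * PP τ * Ce * w ν := fun ν => by
      rw [norm_mul]
      calc ‖b ν‖ * ‖Ep α Q (c i) ν‖ ≤ Cd * PP τ * (Ce * w ν) := by
            refine mul_le_mul ((hb1 ν).trans (mul_le_mul_of_nonneg_left hDa hCd0)) (hE i hi ν)
              (norm_nonneg _) (by positivity)
        _ = _ := by ring
    refine (tail (NN K) S (fun ν => b ν * Ep α Q (c i) ν) w
      (fun ν => ∀ v, ‖mc α ν v‖ ≤ W * bt α τ v) hw0 hws h0 (by positivity) h1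
      fun ν hν hν0 hP => hν ((hmem ν).2 ⟨hν0, hP⟩)).trans ?_
    have h2 : PP τ * (W ^ (-(((k + 3 : ℕ) : ℝ) - 5)) * (dK K * (1 + PP α * PP (bt α τ)))) ≤
        2 * dK K := by
      have h3 : PP α * PP (bt α τ) ≤ PP τ := by
        calc PP α * PP (bt α τ) ≤ 1 * PP τ := mul_le_mul ha1 hBT hB0.le zero_le_one
          _ = PP τ := one_mul _
      calc PP τ * (W ^ (-(((k + 3 : ℕ) : ℝ) - 5)) * (dK K * (1 + PP α * PP (bt α τ)))) ≤
            PP τ * ((PP τ ^ 2)⁻¹ * (dK K * (1 + PP τ))) := by gcongr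
        _ = dK K * ((1 + PP τ) / PP τ) := by field_simp
        _ ≤ dK K * 2 := by
            refine mul_le_mul_of_nonneg_left ?_ (by linarith)
            rw [div_le_iff₀ hT0]
            linarith
        _ = 2 * dK K := mul_comm _ _
    calc Cd * Ce + Cd * PP τ * Ce *
          ∑' ν : {ν : K // ν ∈ NN K ∧ ¬ ∀ v, ‖mc α ν v‖ ≤ W * bt α τ v}, w ν ≤
          Cd * Ce + Cd * PP τ * Ce *
          (Cz * (W ^ (-(((k + 3 : ℕ) : ℝ) - 5)) * (dK K * (1 + PP α * PP (bt α τ))))) := by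
          refine add_le_add le_rfl (mul_le_mul_of_nonneg_left htl (by positivity))
      _ = Cd * Ce + Cd * Ce * Cz * (PP τ * (W ^ (-(((k + 3 : ℕ) : ℝ) - 5)) *
          (dK K * (1 + PP α * PP (bt α τ))))) := by ring
      _ ≤ Cd * Ce * dK K + Cd * Ce * Cz * (2 * dK K) := by
          refine add_le_add (le_mul_of_one_le_right (by positivity) hd) ?_
          exact mul_le_mul_of_nonneg_left h2 (by positivity)
      _ = Cd * Ce * (1 + 2 * Cz) * dK K := by ring

end Pool.Agent.H6.TM.P2
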